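import Pool.Agent.Q93.RW.Group

/-!
# MP_b50549_al : the positivity of the probability of a law depends on the random walk measure
-/

namespace Pool.Agent.Results.MP_b50549_al.DriftMatters

open Pool.Agent.Q93.RW Filter Topology

noncomputable section

/-- `μ` is a step distribution: a finitely supported probability measure whose support generates
the group and with `μ(1) > 0`. -/
def IsStepDist {G : Type} [Group G] (μ : G →₀ ℝ) : Prop :=
  (∀ g, 0 ≤ μ g) ∧ μ.sum (fun _ r => r) = 1 ∧ Subgroup.closure (μ.support : Set G) = ⊤ ∧ 0 < μ 1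

/-- The probability that `G` satisfies `w` with respect to the random walk measure of `μ`. -/
def PrLaw {G : Type} [Group G] (μ : G →₀ ℝ) {d : ℕ} (w : FreeGroup (Fin d)) : ℝ :=
  limsup (fun n => lawProb (convPow μ n) w) atTop

/-- The word `[[x₃, x₀], x₂ [x₄, x₁] x₂⁻¹]`. -/
def word : FreeGroup (Fin 5) :=
  cm (cm (FreeGroup.of 3) (FreeGroup.of 0))
    (FreeGroup.of 2 * cm (FreeGroup.of 4) (FreeGroup.of 1) * (FreeGroup.of 2)⁻¹)

theorem word_ne_one : word ≠ 1 := by
  intro h
  have h2 := congrArg (FreeGroup.lift (![Equiv.swap 1 2, Equiv.swap 2 3, 1, Equiv.swap 0 1,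
    Equiv.swap 1 2] : Fin 5 → Equiv.Perm (Fin 4))) h
  simp only [word, map_cm, map_mul, map_inv, FreeGroup.lift_apply_of, map_one] at h2
  revert h2
  unfold cm
  decide

theorem lift_word {G : Type} [Group G] (g : Fin 5 → G) :
    FreeGroup.lift g word = cm (cm (g 3) (g 0)) (g 2 * cm (g 4) (g 1) * (g 2)⁻¹) := by
  simp only [word, map_cm, map_mul, map_inv, FreeGroup.lift_apply_of]

theorem hQ (g : Fin 5 → GG) : FreeGroup.lift g word = 1 ↔
    Q ((Subgroup.closure Sset).subtype (g 0)) ((Subgroup.closure Sset).subtype (g 1))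
      ((Subgroup.closure Sset).subtype (g 2)) ((Subgroup.closure Sset).subtype (g 3))
      ((Subgroup.closure Sset).subtype (g 4)) := by
  rw [lift_word]
  unfold Q
  rw [← map_cm, ← map_cm, ← map_inv, ← map_mul, ← map_mul, ← map_cm]
  exact (map_eq_one_iff (Subgroup.closure Sset).subtype Subtype.val_injective).symm

/-- without drift -/
def μs : GG →₀ ℝ := stepMeas (stepG symMv symMv_cases)

/-- with drift -/
def μd : GG →₀ ℝ := stepMeas (stepG driMv driMv_cases)

open Classical in
theorem law_s (n : ℕ) : lawProb (convPow (stepMeas (stepG symMv symMv_cases)) n) word =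
    T (H := S3) symMv n (fun a0 => T symMv n (fun a1 => T symMv n (fun a2 => T symMv n (fun a3 =>
      T symMv n (fun a4 => if Q a0 a1 a2 a3 a4 then 1 else 0))))) := by
  exact lawProb_T5 symMv (Subgroup.closure Sset).subtype (stepG symMv symMv_cases)
    (fun x => rfl) word Q hQ n

open Classical in
theorem law_d (n : ℕ) : lawProb (convPow (stepMeas (stepG driMv driMv_cases)) n) word =
    T (H := S3) driMv n (fun a0 => T driMv n (fun a1 => T driMv n (fun a2 => T driMv n (fun a3 =>
      T driMv n (fun a4 => if Q a0 a1 a2 a3 a4 then 1 else 0))))) := by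
  exact lawProb_T5 driMv (Subgroup.closure Sset).subtype (stepG driMv driMv_cases)
    (fun x => rfl) word Q hQ n

theorem isStepDist_of {mv : Fin 4 → ℤ} (hmv : ∀ m, mv m = 0 ∨ mv m = 1 ∨ mv m = -1)
    (hsurj : ∀ e : ℤ, (e = 0 ∨ e = 1 ∨ e = -1) → ∃ m, mv m = e) :
    IsStepDist (stepMeas (stepG mv hmv)) := by
  refine ⟨stepMeas_nonneg _, stepMeas_sum _, ?_, ?_⟩
  · have h1 : ((stepMeas (stepG mv hmv)).support : Set GG) = (Subtype.val) ⁻¹' Sset := by
      ext g
      rw [Finset.mem_coe, stepMeas_support, range_stepG mv hmv hsurj]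
      rfl
    rw [h1]
    exact Subgroup.closure_closure_coe_preimage
  · rw [stepMeas_pos_iff, range_stepG mv hmv hsurj]
    exact ⟨0, Or.inl rfl, 1, 1, by simp [stepW]⟩

theorem support_eq : μs.support = μd.support := by
  ext g
  unfold μs μd
  rw [stepMeas_support, stepMeas_support, range_stepG symMv symMv_cases symMv_surj,
    range_stepG driMv driMv_cases driMv_surj]

theorem stepW_inv (e : ℤ) (h h' : S3) : (stepW e h h')⁻¹ = stepW (-e) h'⁻¹ h⁻¹ := by
  by_cases he : e = 0
  · subst he; simp [stepW]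
  · have he' : -e ≠ 0 := by omega
    unfold stepW
    rw [if_neg he, if_neg he']
    ext1
    · ext1 p
      rw [inv_lamp]
      simp only [Pi.mul_apply, Pi.mulSingle_apply, mul_inv_rev]
      by_cases h1 : p = 0
      · subst h1
        simp [he]
      · by_cases h2 : p = -e
        · subst h2
          have h6 : ¬ ((0 : ℤ) = e) := fun h => he h.symm
          simp [he, h6]
        · have h3 : p + e ≠ 0 := by omega
          have h4 : p + e ≠ e := by omega
          simp [h1, h2, h3]
    · rfl

theorem support_inv (g : GG) (hg : g ∈ μs.support) : g⁻¹ ∈ μs.support := by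
  unfold μs at hg ⊢
  rw [stepMeas_support, range_stepG symMv symMv_cases symMv_surj] at hg ⊢
  obtain ⟨e, he, h, h', hg⟩ := hg
  refine ⟨-e, by omega, h'⁻¹, h⁻¹, ?_⟩
  rw [← stepW_inv, ← hg]; rfl

theorem fg : Group.FG GG := by
  rw [Group.fg_iff]
  exact ⟨μs.support, (isStepDist_of symMv_cases symMv_surj).2.2.1, Finset.finite_toSet _⟩

theorem law_s_le_one (n : ℕ) : lawProb (convPow μs n) word ≤ 1 := by
  unfold μs
  rw [law_s]
  have h := T_isExp (H := S3) symMv n
  refine h.le_const fun a0 => h.le_const fun a1 => h.le_const fun a2 => h.le_const fun a3 =>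
    h.le_const fun a4 => ?_
  split_ifs <;> norm_num

theorem law_d_nonneg (n : ℕ) : 0 ≤ lawProb (convPow μd n) word := by
  unfold μd
  rw [law_d]
  have h := T_isExp (H := S3) driMv n
  refine h.const_le fun a0 => h.const_le fun a1 => h.const_le fun a2 => h.const_le fun a3 =>
    h.const_le fun a4 => ?_
  split_ifs <;> norm_num

theorem tendsto_d : Tendsto (fun n => lawProb (convPow μd n) word) atTop (𝓝 0) := by
  rw [Metric.tendsto_atTop]
  intro ε hε
  set c : ℝ := (K S3 : ℝ) / (Fintype.card (S3 × S3) : ℝ) with hc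
  have hc0 : 0 ≤ c := by positivity
  have hc1 : c < 1 := by
    rw [hc, div_lt_one (by exact_mod_cast Fintype.card_pos)]
    exact_mod_cast K_lt
  obtain ⟨M0, hM0⟩ := exists_pow_lt_of_lt_one (half_pos hε) hc1
  obtain ⟨N, hN⟩ := exists_nat_gt (5 * 1100 / (ε / 2))
  refine ⟨max (max N (40 * (M0 + 1))) 1, fun n hn => ?_⟩
  have hn1 : N ≤ n := (le_max_left _ _).trans ((le_max_left _ _).trans hn)
  have hn2 : 40 * (M0 + 1) ≤ n := (le_max_right _ _).trans ((le_max_left _ _).trans hn)
  have hn3 : 0 < n := (le_max_right _ _).trans hn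
  have hup := upper_dri (H := S3) n M0 hn3 hn2
  rw [Real.dist_eq, sub_zero, abs_of_nonneg (law_d_nonneg n)]
  have h1 : lawProb (convPow μd n) word ≤ 5 * (1100 / n) + c ^ M0 := by
    unfold μd
    rw [law_d]
    exact hup
  have h2 : 5 * (1100 / (n : ℝ)) < ε / 2 := by
    have hn' : (0 : ℝ) < n := by exact_mod_cast hn3
    have h3 : 5 * 1100 / (ε / 2) < n := lt_of_lt_of_le hN (by exact_mod_cast hn1)
    rw [div_lt_iff₀ (half_pos hε)] at h3
    rw [← mul_div_assoc, div_lt_iff₀ hn']
    linarith
  linarith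

theorem pos_s : 0 < PrLaw μs word := by
  set c0 : ℝ := (Real.exp (-(288 * Real.pi ^ 2 / 8))) ^ 4 * (1 / 12) with hc0
  have hpos : 0 < c0 := by positivity
  refine lt_of_lt_of_le hpos ?_
  refine Filter.le_limsup_of_frequently_le ?_ ?_
  · rw [Filter.frequently_atTop]
    intro N
    refine ⟨288 * (N + 1 + 1) ^ 2, by nlinarith, ?_⟩
    have := lower_sym (H := S3) (N + 1) (288 * (N + 1 + 1) ^ 2) (by omega) rfl
    unfold μs
    rw [law_s]
    exact this
  · exact ⟨1, by
      rw [Filter.eventually_map]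
      exact Filter.Eventually.of_forall law_s_le_one⟩

/-- **Main theorem.** There are a finitely generated group `G`, a nontrivial word `w` and two step
distributions `μ`, `ν` on `G` (with the same symmetric support) such that the probability of the
law `w = 1` is zero for `μ` and positive for `ν`. -/
theorem result : ∃ (G : Type) (_ : Group G) (d : ℕ) (w : FreeGroup (Fin d)) (μ ν : G →₀ ℝ),
    Group.FG G ∧ w ≠ 1 ∧ IsStepDist μ ∧ IsStepDist ν ∧
    μ.support = ν.support ∧ (∀ g ∈ μ.support, g⁻¹ ∈ μ.support) ∧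
    PrLaw μ w = 0 ∧ 0 < PrLaw ν w := by
  refine ⟨GG, inferInstance, 5, word, μd, μs, fg, word_ne_one,
    isStepDist_of driMv_cases driMv_surj, isStepDist_of symMv_cases symMv_surj,
    support_eq.symm, ?_, tendsto_d.limsup_eq, pos_s⟩
  intro g hg
  rw [← support_eq] at hg ⊢
  exact support_inv g hg

end

end Pool.Agent.Results.MP_b50549_al.DriftMatters
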